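import Pool.Agent.MP_a1b43b_an.Mg.Orbit

/-! The example with its extra properties: the origin is the only zero, the periodic solution is a
simple closed curve avoiding the origin, eigenvalues are expressed through complex eigenvectors. -/

open scoped ContDiff
open Set

namespace Pool.Agent.MP_a1b43b_an

theorem aeval_charpoly_of_eigen (A : Matrix (Fin 3) (Fin 3) ℝ) (z : ℂ) (v : Fin 3 → ℂ)
    (hv : v ≠ 0) (h : ∀ i, ∑ j, (A i j : ℂ) * v j = z * v i) :
    Polynomial.aeval z A.charpoly = 0 := by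
  rw [Polynomial.aeval_def, Polynomial.eval₂_eq_eval_map, ← Matrix.charpoly_map,
    Matrix.eval_charpoly]
  rw [← Matrix.exists_mulVec_eq_zero_iff]
  refine ⟨v, hv, ?_⟩
  ext i
  have := h i
  simp only [Matrix.sub_mulVec, Pi.sub_apply, Pi.zero_apply]
  rw [sub_eq_zero]
  simp only [Matrix.mulVec, dotProduct, Matrix.map_apply, Matrix.scalar_apply]
  simp only [Complex.coe_algebraMap]
  rw [this]
  simp [Matrix.diagonal_apply]

theorem strong_pi :
    ∃ F : (Fin 3 → ℝ) → (Fin 3 → ℝ),
      ContDiff ℝ ∞ F ∧ (∀ x, F x = 0 ↔ x = 0) ∧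
      (∀ (x : Fin 3 → ℝ) (z : ℂ),
        Polynomial.aeval z
            (LinearMap.toMatrix' (fderiv ℝ F x).toLinearMap).charpoly = 0 → z.re < 0) ∧
      ∃ γ : ℝ → (Fin 3 → ℝ), ∃ T : ℝ, 0 < T ∧
        (∀ t : ℝ, HasDerivAt γ (F (γ t)) t) ∧
        (∀ t : ℝ, γ (t + T) = γ t) ∧ InjOn γ (Ico 0 T) ∧ ∀ t, γ t ≠ 0 := by
  obtain ⟨k, hk, hkpos, hkeq⟩ := posExt pk cd_k pos_k
  obtain ⟨B, b, hB, hBd, hbpos, hBeq⟩ := monoExt pB pBp hd_B cd_Bp pos_Bp
  obtain ⟨S, s, hS, hSd, hspos, hSeq⟩ := monoExt pS pSp hd_S cd_Sp pos_Sp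
  obtain ⟨θ, T, hT, hθ, hper, hsurj⟩ := exists_angle om om_cont om_pos om_per
  have hSm : StrictMono S := strictMono_of_deriv_pos fun x => by
    rw [(hSd x).deriv]; exact hspos x
  have hθm : StrictMono θ := strictMono_of_deriv_pos fun x => by
    rw [(hθ x).deriv]; exact om_pos _
  have h1 : S (-1) < 0 := by
    rw [hSeq _ (by norm_num)]; unfold pS; norm_num
  have h2 : 0 < S 1 := by
    rw [hSeq _ (by norm_num)]; unfold pS; norm_num
  obtain ⟨s0, -, hs0⟩ : ∃ s0 ∈ Set.Icc (-1 : ℝ) 1, S s0 = 0 :=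
    intermediate_value_Icc (by norm_num) hS.continuous.continuousOn ⟨h1.le, h2.le⟩
  let x0 : ℝ := pG s0 / k s0
  let u0 : Fin 3 → ℝ := ![x0, s0 - (1 / 400) * (x0 * x0), B s0]
  have hsc : sc (1 / 400) u0 = s0 := by simp [sc, u0]
  have hk0 : k s0 ≠ 0 := (hkpos s0).ne'
  have hf0 : f1 (1 / 400) pG k u0 = 0 := by
    unfold f1
    rw [hsc]
    simp only [u0, x0, Matrix.cons_val_zero]
    field_simp
    ring
  have hF := contDiff_fld (1 / 400) cd_G hk hB hS
  have hzero : ∀ u, fld (1 / 400) pG k B S u = 0 ↔ u = u0 := by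
    intro u
    constructor
    · intro h
      have e0 : f1 (1 / 400) pG k u = 0 := congrFun h 0
      have e2 : S (sc (1 / 400) u) = 0 := by
        have : (1 / 400) * (f1 (1 / 400) pG k u * f1 (1 / 400) pG k u) - S (sc (1 / 400) u) = 0 :=
          congrFun h 2
        rw [e0] at this
        linarith
      have e1 : u 2 = B (sc (1 / 400) u) := by
        have : u 2 - B (sc (1 / 400) u) - 2 * (1 / 400) * (u 0 * f1 (1 / 400) pG k u) = 0 :=
          congrFun h 1
        rw [e0] at this
        linarith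
      have es : sc (1 / 400) u = s0 := hSm.injective (by rw [e2, hs0])
      have ex : u 0 = x0 := by
        unfold f1 at e0
        rw [es] at e0
        simp only [x0]
        field_simp
        linarith
      ext i
      fin_cases i
      · simpa [u0] using ex
      · have : u 1 = s0 - (1 / 400) * (x0 * x0) := by
          rw [← es, ← ex]; unfold sc; ring
        simpa [u0] using this
      · rw [es] at e1
        simpa [u0] using e1
    · rintro rfl
      unfold fld
      rw [hf0, hsc, hs0]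
      ext i
      fin_cases i <;> simp [u0]
  refine ⟨fun u => fld (1 / 400) pG k B S (u + u0), hF.comp (contDiff_id.add contDiff_const),
    ?_, ?_, fun t => curve (θ t) - u0, T, hT, ?_, ?_, ?_, ?_⟩
  · intro x
    show fld (1 / 400) pG k B S (x + u0) = 0 ↔ x = 0
    rw [hzero, add_eq_right]
  · intro x z hz
    rw [fderiv_comp_add_right] at hz
    exact hurwitz (1 / 400) (x + u0)
      ((cd_G.differentiable (by simp)) _).hasDerivAt
      ((hk.differentiable (by simp)) _).hasDerivAt (hBd _) (hSd _)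
      (hkpos _) (hbpos _) (hspos _) z hz
  · intro t
    have := (orbit hkeq hBeq hSeq θ t (hθ t)).sub_const u0
    simpa using this
  · intro t
    simp only [hper, curve_per]
  · intro a ha c hc hac
    have e : curve (θ a) = curve (θ c) := sub_left_injective hac
    have ec : Real.cos (θ a) = Real.cos (θ c) := by rw [← sc_curve, ← sc_curve, e]
    have es : Real.sin (θ a) = Real.sin (θ c) := by
      have := congrFun e 2
      simp only [curve, Matrix.cons_val, ec] at this
      linarith
    have hang : ((θ a : ℝ) : Real.Angle) = (θ c : ℝ) := Real.Angle.cos_sin_inj ec es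
    obtain ⟨n, hn⟩ := Real.Angle.angle_eq_iff_two_pi_dvd_sub.1 hang
    have hT0 : θ T = θ 0 + 2 * Real.pi := by simpa using hper 0
    have a1 := hθm.monotone ha.1
    have a2 := hθm ha.2
    have c1 := hθm.monotone hc.1
    have c2 := hθm hc.2
    have hpi := Real.pi_pos
    have n1 : (n : ℝ) < 1 := by nlinarith
    have n2 : (-1 : ℝ) < n := by nlinarith
    have n3 : n < 1 := by exact_mod_cast n1
    have n4 : -1 < n := by exact_mod_cast n2
    have n0 : n = 0 := by omega
    subst n0
    apply hθm.injective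
    simp at hn
    linarith
  · intro t ht
    have e : curve (θ t) = u0 := sub_eq_zero.1 ht
    have hc : Real.cos (θ t) ∈ Icc (-1 : ℝ) 1 := ⟨Real.neg_one_le_cos _, Real.cos_le_one _⟩
    have ec : Real.cos (θ t) = s0 := by rw [← sc_curve, e, hsc]
    have e2 : - Real.sin (θ t) + pZ (Real.cos (θ t)) = pB (Real.cos (θ t)) := by
      have := congrFun e 2
      simp only [curve, u0, Matrix.cons_val] at this
      rw [this, ← ec, hBeq _ hc]
    have h3 := Real.sin_sq_add_cos_sq (θ t)
    have hs : Real.sin (θ t) * om (θ t) = 0 := by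
      have h4 := congrArg (fun w => prho (Real.cos (θ t)) * w) h3
      unfold om
      unfold pB pZ at e2
      unfold prho at *
      linear_combination - e2 + h4
    have hs' : Real.sin (θ t) = 0 := (mul_eq_zero.1 hs).resolve_right (om_pos _).ne'
    rw [hs', ec] at h3
    have : (s0 - 1) * (s0 + 1) = 0 := by linear_combination h3
    rcases mul_eq_zero.1 this with h | h
    · have : s0 = 1 := by linarith
      rw [this] at hs0; linarith
    · have : s0 = -1 := by linarith
      rw [this] at hs0; linarith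

theorem strong_euclid :
    ∃ F : EuclideanSpace ℝ (Fin 3) → EuclideanSpace ℝ (Fin 3),
      ContDiff ℝ ∞ F ∧ (∀ x, F x = 0 ↔ x = 0) ∧
      (∀ (x : EuclideanSpace ℝ (Fin 3)) (z : ℂ) (v : Fin 3 → ℂ), v ≠ 0 →
        (∀ i, ∑ j, ((fderiv ℝ F x (EuclideanSpace.single j 1) i : ℝ) : ℂ) * v j = z * v i) →
        z.re < 0) ∧
      ∃ (γ : ℝ → EuclideanSpace ℝ (Fin 3)) (T : ℝ), 0 < T ∧
        (∀ t, HasDerivAt γ (F (γ t)) t) ∧ Function.Periodic γ T ∧
        InjOn γ (Ico 0 T) ∧ ∀ t, γ t ≠ 0 := by
  obtain ⟨F, hF, hz, hev, γ, T, hT, hd, hp, hi, hn⟩ := strong_pi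
  let e := EuclideanSpace.equiv (Fin 3) ℝ
  refine ⟨fun x => e.symm (F (e x)), e.symm.contDiff.comp (hF.comp e.contDiff), ?_, ?_,
    fun t => e.symm (γ t), T, hT, ?_, ?_, ?_, ?_⟩
  · intro x
    simp only [map_eq_zero_iff _ e.symm.injective, hz, map_eq_zero_iff _ e.injective]
  · intro x z v hv h
    apply hev (e x) z
    apply aeval_charpoly_of_eigen _ z v hv
    have hD : HasFDerivAt (fun x => e.symm (F (e x)))
        ((e.symm : (Fin 3 → ℝ) →L[ℝ] EuclideanSpace ℝ (Fin 3)).comp ((fderiv ℝ F (e x)).comp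
          (e : EuclideanSpace ℝ (Fin 3) →L[ℝ] (Fin 3 → ℝ)))) x :=
      e.symm.hasFDerivAt.comp x
        (((hF.differentiable (by simp)) (e x)).hasFDerivAt.comp x e.hasFDerivAt)
    intro i
    rw [← h i, hD.fderiv]
    refine Finset.sum_congr rfl fun j _ => ?_
    congr 2
  · intro t
    have := e.symm.hasFDerivAt.comp_hasDerivAt t (hd t)
    show HasDerivAt (fun t => e.symm (γ t)) (e.symm (F (e (e.symm (γ t))))) t
    rw [e.apply_symm_apply]
    exact this
  · intro t
    simp only [hp]
  · intro a ha c hc h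
    exact hi ha hc (e.symm.injective h)
  · intro t h
    exact hn t ((map_eq_zero_iff _ e.symm.injective).1 h)

end Pool.Agent.MP_a1b43b_an
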