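import Mathlib

-- part MP_a1b43b_an.OneDim
section

/-! Auxiliary one-variable lemmas: positive / monotone smooth extensions from the interval
`[-1,1]`, and the solution of a scalar periodic equation `θ' = om θ`. -/

open scoped ContDiff
open Set

namespace Pool.Agent.MP_a1b43b_an

/-- A smooth function positive on `[-1,1]` agrees there with a globally positive smooth one. -/
theorem posExt (P : ℝ → ℝ) (hP : ContDiff ℝ ∞ P) (h : ∀ x ∈ Icc (-1 : ℝ) 1, 0 < P x) :
    ∃ q : ℝ → ℝ, ContDiff ℝ ∞ q ∧ (∀ x, 0 < q x) ∧ ∀ x ∈ Icc (-1 : ℝ) 1, q x = P x := by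
  have hopen : IsOpen {x : ℝ | 0 < P x} := isOpen_lt continuous_const hP.continuous
  have hsub : Metric.closedBall (0 : ℝ) 1 ⊆ {x : ℝ | 0 < P x} := by
    intro x hx
    rw [Real.closedBall_eq_Icc] at hx
    exact h x (by simpa using hx)
  obtain ⟨δ, hδ, hth⟩ := (isCompact_closedBall (0 : ℝ) 1).exists_thickening_subset_open hopen hsub
  rw [thickening_closedBall hδ zero_le_one] at hth
  let b : ContDiffBump (0 : ℝ) := ⟨1, δ + 1, one_pos, by linarith⟩
  refine ⟨fun x => b x * P x + (1 - b x), ?_, ?_, ?_⟩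
  · exact (b.contDiff.mul hP).add (contDiff_const.sub b.contDiff)
  · intro x
    have h0 : 0 ≤ b x := b.nonneg
    have h1 : b x ≤ 1 := b.le_one
    by_cases hx : x ∈ Metric.ball (0 : ℝ) (δ + 1)
    · have hp : 0 < P x := hth hx
      have hb : 0 < b x := b.pos_of_mem_ball hx
      have := mul_pos hb hp
      show 0 < b x * P x + (1 - b x)
      linarith
    · have hb : b x = 0 := b.zero_of_le_dist (by simpa [Metric.mem_ball, b] using hx)
      show 0 < b x * P x + (1 - b x)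
      rw [hb]; norm_num
  · intro x hx
    have hb : b x = 1 := b.one_of_mem_closedBall (by
      rw [Real.closedBall_eq_Icc]; simpa [b] using hx)
    show b x * P x + (1 - b x) = P x
    rw [hb]; ring

/-- A function with smooth derivative positive on `[-1,1]` agrees there with a smooth function
whose derivative is positive everywhere. -/
theorem monoExt (P P' : ℝ → ℝ) (hP : ∀ x, HasDerivAt P (P' x) x) (hP' : ContDiff ℝ ∞ P')
    (h : ∀ x ∈ Icc (-1 : ℝ) 1, 0 < P' x) :
    ∃ Q q : ℝ → ℝ, ContDiff ℝ ∞ Q ∧ (∀ x, HasDerivAt Q (q x) x) ∧ (∀ x, 0 < q x) ∧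
      ∀ x ∈ Icc (-1 : ℝ) 1, Q x = P x := by
  obtain ⟨q, hq, hpos, heq⟩ := posExt P' hP' h
  have hd : ∀ x, HasDerivAt (fun x => P 0 + ∫ t in (0 : ℝ)..x, q t) (q x) x := fun x =>
    ((hq.continuous.integral_hasStrictDerivAt 0 x).hasDerivAt).const_add (P 0)
  refine ⟨fun x => P 0 + ∫ t in (0 : ℝ)..x, q t, q, ?_, hd, hpos, ?_⟩
  · rw [contDiff_infty_iff_deriv]
    refine ⟨fun x => (hd x).differentiableAt, ?_⟩
    have : deriv (fun x => P 0 + ∫ t in (0 : ℝ)..x, q t) = q := funext fun x => (hd x).deriv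
    rw [this]; exact hq
  · intro x hx
    have h1 : ∫ t in (0 : ℝ)..x, q t = ∫ t in (0 : ℝ)..x, P' t := by
      apply intervalIntegral.integral_congr
      intro t ht
      apply heq
      have hsub : uIcc (0 : ℝ) x ⊆ Icc (-1 : ℝ) 1 := uIcc_subset_Icc (by norm_num) hx
      exact hsub ht
    have h2 : ∫ t in (0 : ℝ)..x, P' t = P x - P 0 :=
      intervalIntegral.integral_eq_sub_of_hasDerivAt (fun t _ => hP t)
        (hP'.continuous.intervalIntegrable _ _)
    show P 0 + ∫ t in (0 : ℝ)..x, q t = P x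
    rw [h1, h2]; ring

/-- The scalar equation `θ' = om θ` with `om` continuous, positive and `2π`-periodic has a global
solution which is onto and advances by `2π` over a fixed positive time. -/
theorem exists_angle (om : ℝ → ℝ) (hc : Continuous om) (hpos : ∀ x, 0 < om x)
    (hper : Function.Periodic om (2 * Real.pi)) :
    ∃ θ : ℝ → ℝ, ∃ T : ℝ, 0 < T ∧ (∀ t, HasDerivAt θ (om (θ t)) t) ∧
      (∀ t, θ (t + T) = θ t + 2 * Real.pi) ∧ Function.Surjective θ := by
  let g : ℝ → ℝ := fun x => (om x)⁻¹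
  have hgc : Continuous g := hc.inv₀ fun x => (hpos x).ne'
  have hgpos : ∀ x, 0 < g x := fun x => inv_pos.2 (hpos x)
  have hgper : Function.Periodic g (2 * Real.pi) := fun x => by simp [g, hper x]
  have h2pi : 0 < 2 * Real.pi := by positivity
  let τ : ℝ → ℝ := fun x => ∫ t in (0 : ℝ)..x, g t
  have hd : ∀ x, HasDerivAt τ (g x) x := fun x =>
    (hgc.integral_hasStrictDerivAt 0 x).hasDerivAt
  have hτc : Continuous τ := continuous_iff_continuousAt.2 fun x => (hd x).continuousAt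
  have hmono : StrictMono τ := strictMono_of_deriv_pos fun x => by
    rw [(hd x).deriv]; exact hgpos x
  have hint : ∀ a b : ℝ, IntervalIntegrable g MeasureTheory.volume a b :=
    fun a b => hgc.intervalIntegrable a b
  have hsurj : Function.Surjective τ :=
    hτc.surjective (hgper.tendsto_atTop_intervalIntegral_of_pos' (hint _ _) hgpos h2pi)
      (hgper.tendsto_atBot_intervalIntegral_of_pos' (hint _ _) hgpos h2pi)
  let e : ℝ ≃o ℝ := hmono.orderIsoOfSurjective τ hsurj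
  have he : ∀ x, e x = τ x := fun x => rfl
  have hT : ∀ x, τ (x + 2 * Real.pi) = τ x + τ (2 * Real.pi) := by
    intro x
    have h1 := hgper.intervalIntegral_add_eq x 0
    have h2 := intervalIntegral.integral_add_adjacent_intervals (hint 0 x)
      (hint x (x + 2 * Real.pi))
    simp only [τ]
    rw [← h2, h1, zero_add]
  refine ⟨e.symm, τ (2 * Real.pi), ?_, ?_, ?_, e.symm.surjective⟩
  · have h0 : τ 0 = 0 := by simp [τ]
    have := hmono h2pi
    rwa [h0] at this
  · intro t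
    have := HasDerivAt.of_local_left_inverse (f := τ) (g := e.symm) (a := t)
      e.symm.continuous.continuousAt (hd (e.symm t)) (hgpos _).ne'
      (Filter.Eventually.of_forall fun y => by rw [← he]; exact e.apply_symm_apply y)
    simpa [g] using this
  · intro t
    apply e.injective
    rw [e.apply_symm_apply, he, hT, ← he (e.symm t), e.apply_symm_apply]

end Pool.Agent.MP_a1b43b_an

end

-- part MP_a1b43b_an.Field
section

/-! A family of vector fields on `ℝ³` with Hurwitz Jacobian at every point: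
`x' = f`, `y' = z - B s - 2 d x f`, `z' = d f² - S s`, where `s = y + d x²` and
`f = G s - k s * x`.  The characteristic polynomial of the Jacobian is
`(λ + k s) (λ² + B' s λ + S' s)`. -/

open scoped ContDiff

namespace Pool.Agent.MP_a1b43b_an

/-- the auxiliary coordinate `s = y + d x²` -/
def sc (d : ℝ) (u : Fin 3 → ℝ) : ℝ := u 1 + d * (u 0 * u 0)

/-- the first component `f = G s - k s * x` -/
def f1 (d : ℝ) (G k : ℝ → ℝ) (u : Fin 3 → ℝ) : ℝ := G (sc d u) - k (sc d u) * u 0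

/-- the vector field -/
def fld (d : ℝ) (G k B S : ℝ → ℝ) (u : Fin 3 → ℝ) : Fin 3 → ℝ :=
  ![f1 d G k u, u 2 - B (sc d u) - 2 * d * (u 0 * f1 d G k u),
    d * (f1 d G k u * f1 d G k u) - S (sc d u)]

theorem contDiff_sc (d : ℝ) : ContDiff ℝ ∞ (sc d) := by
  unfold sc; fun_prop

theorem contDiff_f1 (d : ℝ) {G k : ℝ → ℝ} (hG : ContDiff ℝ ∞ G) (hk : ContDiff ℝ ∞ k) :
    ContDiff ℝ ∞ (f1 d G k) := by
  unfold f1
  exact (hG.comp (contDiff_sc d)).sub ((hk.comp (contDiff_sc d)).mul (contDiff_apply ℝ ℝ 0))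

theorem contDiff_fld (d : ℝ) {G k B S : ℝ → ℝ} (hG : ContDiff ℝ ∞ G) (hk : ContDiff ℝ ∞ k)
    (hB : ContDiff ℝ ∞ B) (hS : ContDiff ℝ ∞ S) : ContDiff ℝ ∞ (fld d G k B S) := by
  have hs := contDiff_sc d
  have hf := contDiff_f1 d hG hk
  rw [contDiff_pi]
  intro i
  fin_cases i
  · simpa [fld] using hf
  · simpa [fld] using
      ((contDiff_apply ℝ ℝ (2 : Fin 3)).sub (hB.comp hs)).sub
        (contDiff_const.mul ((contDiff_apply ℝ ℝ (0 : Fin 3)).mul hf))
  · simpa [fld] using (contDiff_const.mul (hf.mul hf)).sub (hS.comp hs)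

/-- coordinate projections as continuous linear maps -/
noncomputable def pr (i : Fin 3) : (Fin 3 → ℝ) →L[ℝ] ℝ := ContinuousLinearMap.proj i

theorem hasFDerivAt_pr (i : Fin 3) (u : Fin 3 → ℝ) :
    HasFDerivAt (fun v : Fin 3 → ℝ => v i) (pr i) u := (pr i).hasFDerivAt

theorem hasFDerivAt_three (F : (Fin 3 → ℝ) → Fin 3 → ℝ) (u : Fin 3 → ℝ)
    {L0 L1 L2 : (Fin 3 → ℝ) →L[ℝ] ℝ} (h0 : HasFDerivAt (fun v => F v 0) L0 u)
    (h1 : HasFDerivAt (fun v => F v 1) L1 u) (h2 : HasFDerivAt (fun v => F v 2) L2 u) :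
    HasFDerivAt F
      (ContinuousLinearMap.pi (![L0, L1, L2] : Fin 3 → ((Fin 3 → ℝ) →L[ℝ] ℝ))) u := by
  rw [hasFDerivAt_pi']
  intro i
  fin_cases i
  · exact h0
  · exact h1
  · exact h2

/-- The Jacobian matrix of the field. -/
theorem jac (d : ℝ) {G k B S : ℝ → ℝ} (u : Fin 3 → ℝ) {g' k' b' s' : ℝ}
    (hG : HasDerivAt G g' (sc d u)) (hk : HasDerivAt k k' (sc d u))
    (hB : HasDerivAt B b' (sc d u)) (hS : HasDerivAt S s' (sc d u)) :
    LinearMap.toMatrix' (fderiv ℝ (fld d G k B S) u).toLinearMap =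
      !![(g' - k' * u 0) * (2 * d * u 0) - k (sc d u), g' - k' * u 0, 0;
         - b' * (2 * d * u 0) - 2 * d * (f1 d G k u + u 0 *
            ((g' - k' * u 0) * (2 * d * u 0) - k (sc d u))),
           - b' - 2 * d * u 0 * (g' - k' * u 0), 1;
         2 * d * f1 d G k u * ((g' - k' * u 0) * (2 * d * u 0) - k (sc d u))
            - s' * (2 * d * u 0),
           2 * d * f1 d G k u * (g' - k' * u 0) - s', 0] := by
  have h0 := hasFDerivAt_pr 0 u
  have h1 := hasFDerivAt_pr 1 u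
  have h2 := hasFDerivAt_pr 2 u
  have hs : HasFDerivAt (sc d) _ u := h1.add ((h0.mul h0).const_mul d)
  have hf : HasFDerivAt (f1 d G k) _ u :=
    (hG.comp_hasFDerivAt u hs).sub ((hk.comp_hasFDerivAt u hs).mul h0)
  have e1 := (h2.sub (hB.comp_hasFDerivAt u hs)).sub ((h0.mul hf).const_mul (2 * d))
  have e2 := ((hf.mul hf).const_mul d).sub (hS.comp_hasFDerivAt u hs)
  have hF := hasFDerivAt_three (fld d G k B S) u hf e1 e2
  rw [hF.fderiv]
  ext i j
  fin_cases i <;> fin_cases j <;> simp [LinearMap.toMatrix'_apply, pr] <;> ring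

theorem quad_re_neg {b c : ℝ} (hb : 0 < b) (hc : 0 < c) {z : ℂ}
    (h : z * z + (b : ℂ) * z + (c : ℂ) = 0) : z.re < 0 := by
  have hre := congrArg Complex.re h
  have him := congrArg Complex.im h
  simp at hre him
  by_contra hn
  rw [not_lt] at hn
  have : z.im * (2 * z.re + b) = 0 := by linarith
  rcases mul_eq_zero.1 this with h0 | h0
  · rw [h0] at hre; nlinarith
  · linarith

/-- The field is Hurwitz at every point where `k > 0`, `B' > 0`, `S' > 0`. -/
theorem hurwitz (d : ℝ) {G k B S : ℝ → ℝ} (u : Fin 3 → ℝ) {g' k' b' s' : ℝ}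
    (hG : HasDerivAt G g' (sc d u)) (hk : HasDerivAt k k' (sc d u))
    (hB : HasDerivAt B b' (sc d u)) (hS : HasDerivAt S s' (sc d u))
    (hk0 : 0 < k (sc d u)) (hb : 0 < b') (hs : 0 < s') (z : ℂ)
    (hz : Polynomial.aeval z
      (LinearMap.toMatrix' (fderiv ℝ (fld d G k B S) u).toLinearMap).charpoly = 0) :
    z.re < 0 := by
  rw [jac d u hG hk hB hS, Polynomial.aeval_def, Polynomial.eval₂_eq_eval_map,
    ← Matrix.charpoly_map, Matrix.eval_charpoly, Matrix.det_fin_three] at hz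
  have key : (z + (k (sc d u) : ℂ)) * (z * z + (b' : ℂ) * z + (s' : ℂ)) = 0 := by
    rw [← hz]
    simp [Matrix.scalar_apply]
    ring
  rcases mul_eq_zero.1 key with h | h
  · have := congrArg Complex.re h
    simp at this
    linarith
  · exact quad_re_neg hb hs h

end Pool.Agent.MP_a1b43b_an

end

-- part MP_a1b43b_an.Orbit
section

/-! The explicit periodic orbit.  With `c = cos θ`, `s = sin θ` and `θ' = 1 + s * rho c`, the curve
`x = 2 s + X c`, `y = c - x² / 400`, `z = - s + Z c` solves the system of `Field.lean` as soon as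
`G, k, B, S` agree on `[-1,1]` with the polynomials below. -/

open scoped ContDiff
open Set

namespace Pool.Agent.MP_a1b43b_an

/-- polynomial datum -/
noncomputable def prho (c : ℝ) : ℝ :=
  (1 / 100) + (1 / 200) * c ^ 1

/-- polynomial datum -/
noncomputable def pX (c : ℝ) : ℝ :=
  (3 / 1) * c ^ 1 + (1 / 1) * c ^ 2

/-- polynomial datum -/
noncomputable def pXp (c : ℝ) : ℝ :=
  (3 / 1) + (2 / 1) * c ^ 1

/-- polynomial datum -/
noncomputable def pkt (c : ℝ) : ℝ :=
  (3 / 1) + (99 / 50) * c ^ 1 + (-1 / 100) * c ^ 2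

/-- polynomial datum -/
noncomputable def pZp (c : ℝ) : ℝ :=
  (-9 / 20000) + (9589 / 500000) * c ^ 1 + (2951 / 200000) * c ^ 2 + (2499 / 4000000) * c ^ 3 + (991 / 2000000) * c ^ 4 + (389 / 4000000) * c ^ 5 + (-1 / 2000000) * c ^ 6

/-- polynomial datum -/
noncomputable def pZ (c : ℝ) : ℝ :=
  (-9 / 20000) * c ^ 1 + (9589 / 1000000) * c ^ 2 + (2951 / 600000) * c ^ 3 + (2499 / 16000000) * c ^ 4 + (991 / 10000000) * c ^ 5 + (389 / 24000000) * c ^ 6 + (-1 / 14000000) * c ^ 7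

/-- polynomial datum -/
noncomputable def pB (c : ℝ) : ℝ :=
  (1 / 100) + (91 / 20000) * c ^ 1 + (-411 / 1000000) * c ^ 2 + (-49 / 600000) * c ^ 3 + (2499 / 16000000) * c ^ 4 + (991 / 10000000) * c ^ 5 + (389 / 24000000) * c ^ 6 + (-1 / 14000000) * c ^ 7

/-- polynomial datum -/
noncomputable def pBp (c : ℝ) : ℝ :=
  (91 / 20000) + (-411 / 500000) * c ^ 1 + (-49 / 200000) * c ^ 2 + (2499 / 4000000) * c ^ 3 + (991 / 2000000) * c ^ 4 + (389 / 4000000) * c ^ 5 + (-1 / 2000000) * c ^ 6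

/-- polynomial datum -/
noncomputable def pS (c : ℝ) : ℝ :=
  (89991 / 4000000) + (51479739 / 50000000) * c ^ 1 + (-1180399 / 400000000) * c ^ 2 + (-11886903 / 400000000) * c ^ 3 + (-7634189 / 800000000) * c ^ 4 + (49671 / 400000000) * c ^ 5 + (-757 / 200000000) * c ^ 6 + (-681 / 400000000) * c ^ 7 + (-37 / 160000000) * c ^ 8 + (1 / 400000000) * c ^ 9

/-- polynomial datum -/
noncomputable def pSp (c : ℝ) : ℝ :=
  (51479739 / 50000000) + (-1180399 / 200000000) * c ^ 1 + (-35660709 / 400000000) * c ^ 2 + (-7634189 / 200000000) * c ^ 3 + (49671 / 80000000) * c ^ 4 + (-2271 / 100000000) * c ^ 5 + (-4767 / 400000000) * c ^ 6 + (-37 / 20000000) * c ^ 7 + (9 / 400000000) * c ^ 8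

/-- polynomial datum -/
noncomputable def pk (c : ℝ) : ℝ :=
  (3 / 2) + (99 / 100) * c ^ 1 + (-1 / 200) * c ^ 2

/-- polynomial datum -/
noncomputable def pG (c : ℝ) : ℝ :=
  (-3 / 100) + (1293 / 200) * c ^ 1 + (449 / 100) * c ^ 2 + (101 / 100) * c ^ 3 + (1 / 200) * c ^ 4

theorem hd_X (c : ℝ) : HasDerivAt pX (pXp c) c := by
  have h : HasDerivAt pX _ c := (((hasDerivAt_pow 1 c).const_mul ((3 / 1) : ℝ)).add
    ((hasDerivAt_pow 2 c).const_mul ((1 / 1) : ℝ)))
  refine h.congr_deriv ?_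
  unfold pXp
  norm_num
  try ring

theorem hd_Z (c : ℝ) : HasDerivAt pZ (pZp c) c := by
  have h : HasDerivAt pZ _ c := ((((((((hasDerivAt_pow 1 c).const_mul ((-9 / 20000) : ℝ)).add
    ((hasDerivAt_pow 2 c).const_mul ((9589 / 1000000) : ℝ))).add
    ((hasDerivAt_pow 3 c).const_mul ((2951 / 600000) : ℝ))).add
    ((hasDerivAt_pow 4 c).const_mul ((2499 / 16000000) : ℝ))).add
    ((hasDerivAt_pow 5 c).const_mul ((991 / 10000000) : ℝ))).add
    ((hasDerivAt_pow 6 c).const_mul ((389 / 24000000) : ℝ))).add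
    ((hasDerivAt_pow 7 c).const_mul ((-1 / 14000000) : ℝ)))
  refine h.congr_deriv ?_
  unfold pZp
  norm_num
  try ring

theorem hd_B (c : ℝ) : HasDerivAt pB (pBp c) c := by
  have h : HasDerivAt pB _ c := ((((((((hasDerivAt_const c ((1 / 100) : ℝ)).add
    ((hasDerivAt_pow 1 c).const_mul ((91 / 20000) : ℝ))).add
    ((hasDerivAt_pow 2 c).const_mul ((-411 / 1000000) : ℝ))).add
    ((hasDerivAt_pow 3 c).const_mul ((-49 / 600000) : ℝ))).add
    ((hasDerivAt_pow 4 c).const_mul ((2499 / 16000000) : ℝ))).add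
    ((hasDerivAt_pow 5 c).const_mul ((991 / 10000000) : ℝ))).add
    ((hasDerivAt_pow 6 c).const_mul ((389 / 24000000) : ℝ))).add
    ((hasDerivAt_pow 7 c).const_mul ((-1 / 14000000) : ℝ)))
  refine h.congr_deriv ?_
  unfold pBp
  norm_num
  try ring

theorem hd_S (c : ℝ) : HasDerivAt pS (pSp c) c := by
  have h : HasDerivAt pS _ c := ((((((((((hasDerivAt_const c ((89991 / 4000000) : ℝ)).add
    ((hasDerivAt_pow 1 c).const_mul ((51479739 / 50000000) : ℝ))).add
    ((hasDerivAt_pow 2 c).const_mul ((-1180399 / 400000000) : ℝ))).add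
    ((hasDerivAt_pow 3 c).const_mul ((-11886903 / 400000000) : ℝ))).add
    ((hasDerivAt_pow 4 c).const_mul ((-7634189 / 800000000) : ℝ))).add
    ((hasDerivAt_pow 5 c).const_mul ((49671 / 400000000) : ℝ))).add
    ((hasDerivAt_pow 6 c).const_mul ((-757 / 200000000) : ℝ))).add
    ((hasDerivAt_pow 7 c).const_mul ((-681 / 400000000) : ℝ))).add
    ((hasDerivAt_pow 8 c).const_mul ((-37 / 160000000) : ℝ))).add
    ((hasDerivAt_pow 9 c).const_mul ((1 / 400000000) : ℝ)))
  refine h.congr_deriv ?_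
  unfold pSp
  norm_num
  try ring

theorem cd_Bp : ContDiff ℝ ∞ pBp := by
  unfold pBp; fun_prop

theorem cd_Sp : ContDiff ℝ ∞ pSp := by
  unfold pSp; fun_prop

theorem cd_k : ContDiff ℝ ∞ pk := by
  unfold pk; fun_prop

theorem cd_G : ContDiff ℝ ∞ pG := by
  unfold pG; fun_prop

theorem pow_bd (c : ℝ) (hc : c ∈ Icc (-1 : ℝ) 1) (n : ℕ) : -1 ≤ c ^ n ∧ c ^ n ≤ 1 := by
  have h : |c| ≤ 1 := abs_le.2 hc
  have : |c ^ n| ≤ 1 := by rw [abs_pow]; exact pow_le_one₀ (abs_nonneg c) h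
  exact abs_le.1 this

theorem pos_Bp (c : ℝ) (hc : c ∈ Icc (-1 : ℝ) 1) : 0 < pBp c := by
  obtain ⟨l1, u1⟩ := pow_bd c hc 1
  obtain ⟨l2, u2⟩ := pow_bd c hc 2
  obtain ⟨l3, u3⟩ := pow_bd c hc 3
  obtain ⟨l4, u4⟩ := pow_bd c hc 4
  obtain ⟨l5, u5⟩ := pow_bd c hc 5
  obtain ⟨l6, u6⟩ := pow_bd c hc 6
  unfold pBp
  linarith

theorem pos_Sp (c : ℝ) (hc : c ∈ Icc (-1 : ℝ) 1) : 0 < pSp c := by
  obtain ⟨l1, u1⟩ := pow_bd c hc 1
  obtain ⟨l2, u2⟩ := pow_bd c hc 2
  obtain ⟨l3, u3⟩ := pow_bd c hc 3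
  obtain ⟨l4, u4⟩ := pow_bd c hc 4
  obtain ⟨l5, u5⟩ := pow_bd c hc 5
  obtain ⟨l6, u6⟩ := pow_bd c hc 6
  obtain ⟨l7, u7⟩ := pow_bd c hc 7
  obtain ⟨l8, u8⟩ := pow_bd c hc 8
  unfold pSp
  linarith

theorem pos_k (c : ℝ) (hc : c ∈ Icc (-1 : ℝ) 1) : 0 < pk c := by
  obtain ⟨l1, u1⟩ := pow_bd c hc 1
  obtain ⟨l2, u2⟩ := pow_bd c hc 2
  unfold pk
  linarith

/-- the angular speed -/
noncomputable def om (θ : ℝ) : ℝ := 1 + Real.sin θ * prho (Real.cos θ)

theorem om_pos (θ : ℝ) : 0 < om θ := by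
  have h1 := Real.neg_one_le_sin θ
  have h2 := Real.sin_le_one θ
  have h3 := Real.neg_one_le_cos θ
  have h4 := Real.cos_le_one θ
  unfold om prho
  nlinarith

theorem om_cont : Continuous om := by
  unfold om prho; fun_prop

theorem om_per : Function.Periodic om (2 * Real.pi) := fun x => by
  simp [om]

/-- first coordinate of the curve -/
noncomputable def cx (θ : ℝ) : ℝ := 2 * Real.sin θ + pX (Real.cos θ)

/-- the closed curve, parametrised by the angle -/
noncomputable def curve (θ : ℝ) : Fin 3 → ℝ :=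
  ![cx θ, Real.cos θ - (1 / 400) * (cx θ * cx θ), - Real.sin θ + pZ (Real.cos θ)]

theorem sc_curve (θ : ℝ) : sc (1 / 400) (curve θ) = Real.cos θ := by
  simp [sc, curve]

theorem curve_per (θ : ℝ) : curve (θ + 2 * Real.pi) = curve θ := by
  simp [curve, cx]

theorem orbit {k B S : ℝ → ℝ} (hk : ∀ c ∈ Icc (-1 : ℝ) 1, k c = pk c)
    (hB : ∀ c ∈ Icc (-1 : ℝ) 1, B c = pB c) (hS : ∀ c ∈ Icc (-1 : ℝ) 1, S c = pS c)
    (θ : ℝ → ℝ) (t : ℝ) (hθ : HasDerivAt θ (om (θ t)) t) :
    HasDerivAt (fun t => curve (θ t)) (fld (1 / 400) pG k B S (curve (θ t))) t := by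
  have hc : Real.cos (θ t) ∈ Icc (-1 : ℝ) 1 := ⟨Real.neg_one_le_cos _, Real.cos_le_one _⟩
  have h1 := Real.sin_sq_add_cos_sq (θ t)
  have ds := hθ.sin
  have dc := hθ.cos
  have hf : f1 (1 / 400) pG k (curve (θ t)) =
      pG (Real.cos (θ t)) - pk (Real.cos (θ t)) * cx (θ t) := by
    unfold f1
    rw [sc_curve, hk _ hc]
    simp [curve]
  have dx : HasDerivAt (fun t => cx (θ t)) (f1 (1 / 400) pG k (curve (θ t))) t := by
    have a := (ds.const_mul 2).add ((hd_X (Real.cos (θ t))).comp t dc)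
    have : HasDerivAt (fun t => cx (θ t)) _ t := a
    refine this.congr_deriv ?_
    rw [hf]
    have h2 := congrArg (fun w => (prho (Real.cos (θ t)) * pXp (Real.cos (θ t))) * w) h1
    unfold cx om pG pk pX
    unfold prho pXp at *
    linear_combination - h2
  rw [hasDerivAt_pi]
  intro i
  fin_cases i
  · simpa [curve, fld] using dx
  · have : HasDerivAt (fun t => curve (θ t) 1) _ t := dc.sub ((dx.mul dx).const_mul (1 / 400))
    refine this.congr_deriv ?_
    show _ = (- Real.sin (θ t) + pZ (Real.cos (θ t))) - B (sc (1 / 400) (curve (θ t)))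
      - 2 * (1 / 400) * (cx (θ t) * f1 (1 / 400) pG k (curve (θ t)))
    rw [sc_curve, hB _ hc]
    have h2 := congrArg (fun w => prho (Real.cos (θ t)) * w) h1
    unfold om pB pZ
    unfold prho at *
    linear_combination - h2
  · have a := ds.neg.add ((hd_Z (Real.cos (θ t))).comp t dc)
    have : HasDerivAt (fun t => curve (θ t) 2) _ t := a
    refine this.congr_deriv ?_
    show _ = (1 / 400) * (f1 (1 / 400) pG k (curve (θ t)) * f1 (1 / 400) pG k (curve (θ t)))
      - S (sc (1 / 400) (curve (θ t)))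
    rw [sc_curve, hS _ hc, hf]
    have h2 := congrArg (fun w => (prho (Real.cos (θ t)) * pZp (Real.cos (θ t))
      + (1 / 400) * pkt (Real.cos (θ t)) ^ 2) * w) h1
    unfold om cx pS pG pk pX
    unfold prho pZp pkt at *
    linear_combination - h2

end Pool.Agent.MP_a1b43b_an

end
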